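import Pool.Agent.H20.AB.Bas

/-!
Row COV: from `chow` and `ekl`.
-/

set_option linter.unusedSectionVars false

namespace Pool.AB4

open AlgebraicGeometry CategoryTheory Order Filter Topology

variable {Y : Scheme.{0}} [IsIntegral Y] [IsLocallyNoetherian Y] {s : Y ⟶ Spec (.of ℂ)}

/-- ROW COV: from `chow` and `ekl`. -/
theorem cover (hN : Numbers s) (hP : Positivity s) {w : Y} (hw : 1 ≤ height w) {L : Pic Y}
    (hL : Ample L) {α : ℝ} (hα : 0 < α) {B : Set Y} (hB : IsClosed B) (hwB : w ∉ B)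
    (h : ∀ x : Pt Y, w ⤳ x.1 → x.1 ∉ B → ¬ Sesh s w x L α) :
    ∃ r : ℕ, 1 ≤ r ∧ (r : ℕ∞) ≤ height w ∧ ∃ Z : Set Y, IsClosed Z ∧ w ∈ Z ∧
      ∀ x : Pt Y, x.1 ∈ Z → ∃ y : Y, w ⤳ y ∧ y ⤳ x.1 ∧ height y = r ∧
        dg s y L ≤ (r * α) ^ r := by
  choose Z hZ1 hZ2 hZ3 using fun r : ℕ => hP.chow w L hL r ((r * α) ^ r)
  by_contra hcon
  have hZw : ∀ r : ℕ, 1 ≤ r → (r : ℕ∞) ≤ height w → w ∉ Z r := by
    intro r h1 h2 h3
    exact hcon ⟨r, h1, h2, Z r, hZ1 r, h3, hZ3 r⟩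
  let I : Finset ℕ := (Finset.range 5).filter fun r => 1 ≤ r ∧ (r : ℕ∞) ≤ height w
  let B' : Set Y := B ∪ ⋃ r ∈ I, Z r
  have hB' : IsClosed B' := hB.union (isClosed_biUnion_finset fun r _ => hZ1 r)
  have hwB' : w ∉ B' := by
    intro hmem
    rcases hmem with hmem | hmem
    · exact hwB hmem
    · simp only [Set.mem_iUnion] at hmem
      obtain ⟨r, hr, hr2⟩ := hmem
      have hr' := (Finset.mem_filter.1 hr).2
      exact hZw r hr'.1 hr'.2 hr2
  obtain ⟨x, hx1, hx2, hx3⟩ := hP.ekl w L hw hL α hα B' hB' hwB' (by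
    intro y r hy hyr hr hyB
    by_contra hlt
    have hle : height y ≤ height w := height_mono (show y ≤ w from hy)
    have hr4 : r ≤ 4 := by
      have := height_le hN y
      rw [hyr] at this
      exact_mod_cast this
    refine hyB (Or.inr ?_)
    simp only [Set.mem_iUnion]
    refine ⟨r, Finset.mem_filter.2 ⟨Finset.mem_range.2 (by omega), hr, ?_⟩, ?_⟩
    · rw [← hyr]; exact hle
    · exact hZ2 r y hy hyr (le_of_lt (not_le.1 hlt)))
  exact h x hx1 (fun hb => hx2 (Or.inl hb)) hx3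

end Pool.AB4
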